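import Mathlib

set_option autoImplicit false

/-!
# Weighted sums of squared generalized trinomial coefficients

Helper file for the two hand-ins on MP_bba144_nt.
-/

namespace Pool.Agent.V5helper63.TrinomSq

open Finset Polynomial

/-- The generalized central trinomial coefficient `T_m(b,c)`: the coefficient of `x^m` in
`(x^2 + b x + c)^m`. -/
noncomputable def T (b c : ℤ) (m : ℕ) : ℤ :=
  ((X ^ 2 + C b * X + C c : ℤ[X]) ^ m).coeff m

/-! ## The two auxiliary sequences over a commutative ring -/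

section ring

variable {R : Type*} [CommRing R]

/-- `t u c n = ∑ C(n,k) C(2k,k) c^k u^(n-k)`. -/
def t (u c : R) (n : ℕ) : R :=
  ∑ k ∈ range (n + 1), (n.choose k : R) * (k.centralBinom : R) * c ^ k * u ^ (n - k)

/-- `w u c n = ∑ C(n,k) Cat_k c^k u^(n-k)`. -/
def w (u c : R) (n : ℕ) : R :=
  ∑ k ∈ range (n + 1), (n.choose k : R) * (catalan k : R) * c ^ k * u ^ (n - k)

theorem cb_succ (k : ℕ) :
    ((k + 1).centralBinom : R) = 4 * (k.centralBinom : R) - 2 * (catalan k : R) := by
  have h1 : (k + 1) * (k + 1).centralBinom = 2 * (2 * k + 1) * k.centralBinom :=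
    Nat.succ_mul_centralBinom_succ k
  have h2 : (k + 1) * catalan k = k.centralBinom := succ_mul_catalan_eq_centralBinom k
  have h3 : (k + 1).centralBinom + 2 * catalan k = 4 * k.centralBinom := by
    have : (k + 1) * ((k + 1).centralBinom + 2 * catalan k) = (k + 1) * (4 * k.centralBinom) := by
      calc (k + 1) * ((k + 1).centralBinom + 2 * catalan k)
          = (k + 1) * (k + 1).centralBinom + 2 * ((k + 1) * catalan k) := by ring
        _ = 2 * (2 * k + 1) * k.centralBinom + 2 * k.centralBinom := by rw [h1, h2]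
        _ = (k + 1) * (4 * k.centralBinom) := by ring
    exact Nat.eq_of_mul_eq_mul_left (Nat.succ_pos k) this
  have h4 : (((k + 1).centralBinom + 2 * catalan k : ℕ) : R) = ((4 * k.centralBinom : ℕ) : R) := by
    rw [h3]
  push_cast at h4
  linear_combination h4

/-- General Pascal-type step. -/
theorem pascal_sum (u c : R) (f : ℕ → R) (n : ℕ) :
    ∑ k ∈ range (n + 2), ((n + 1).choose k : R) * f k * c ^ k * u ^ (n + 1 - k)
      = u * ∑ k ∈ range (n + 1), (n.choose k : R) * f k * c ^ k * u ^ (n - k)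
        + c * ∑ k ∈ range (n + 1), (n.choose k : R) * f (k + 1) * c ^ k * u ^ (n - k) := by
  rw [sum_range_succ']
  have h1 : u * ∑ k ∈ range (n + 1), (n.choose k : R) * f k * c ^ k * u ^ (n - k)
      = ∑ k ∈ range (n + 1), (n.choose (k + 1) : R) * f (k + 1) * c ^ (k + 1) * u ^ (n - k)
        + f 0 * u ^ (n + 1) := by
    have h2 : ∑ k ∈ range (n + 1), (n.choose (k + 1) : R) * f (k + 1) * c ^ (k + 1) * u ^ (n - k)
        = ∑ k ∈ range n, (n.choose (k + 1) : R) * f (k + 1) * c ^ (k + 1) * u ^ (n - k) := by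
      rw [sum_range_succ]
      simp
    rw [h2, sum_range_succ', mul_add, mul_sum]
    congr 1
    · apply sum_congr rfl
      intro k hk
      have hk' : k + 1 ≤ n := by
        have := mem_range.mp hk
        omega
      have : n - k = (n - (k + 1)) + 1 := by omega
      rw [this, pow_succ]
      ring
    · simp
      ring
  rw [h1, mul_sum]
  have h3 : ∑ k ∈ range (n + 1), ((n + 1).choose (k + 1) : R) * f (k + 1) * c ^ (k + 1)
        * u ^ (n + 1 - (k + 1))
      = ∑ k ∈ range (n + 1), (n.choose (k + 1) : R) * f (k + 1) * c ^ (k + 1) * u ^ (n - k)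
        + ∑ k ∈ range (n + 1), c * ((n.choose k : R) * f (k + 1) * c ^ k * u ^ (n - k)) := by
    rw [← sum_add_distrib]
    apply sum_congr rfl
    intro k hk
    rw [Nat.choose_succ_succ, Nat.add_sub_add_right]
    push_cast
    ring
  rw [h3]
  simp
  ring

theorem t_succ (u c : R) (n : ℕ) : t u c (n + 1) = (u + 4 * c) * t u c n - 2 * c * w u c n := by
  unfold t w
  rw [pascal_sum u c (fun k => (k.centralBinom : R)) n]
  have : ∑ k ∈ range (n + 1), (n.choose k : R) * ((k + 1).centralBinom : R) * c ^ k * u ^ (n - k)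
      = 4 * ∑ k ∈ range (n + 1), (n.choose k : R) * (k.centralBinom : R) * c ^ k * u ^ (n - k)
        - 2 * ∑ k ∈ range (n + 1), (n.choose k : R) * (catalan k : R) * c ^ k * u ^ (n - k) := by
    rw [mul_sum, mul_sum, ← sum_sub_distrib]
    apply sum_congr rfl
    intro k _
    rw [cb_succ]
    ring
  rw [this]
  ring

theorem w_succ (u c : R) (n : ℕ) :
    ((n : R) + 2) * w u c (n + 1) = t u c (n + 1) + ((n : R) + 1) * u * w u c n := by
  unfold t w
  have h1 : ((n : R) + 1) * u * ∑ k ∈ range (n + 1), (n.choose k : R) * (catalan k : R) * c ^ k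
        * u ^ (n - k)
      = ∑ k ∈ range (n + 1 + 1), ((n : R) + 1 - k) * ((n + 1).choose k : R) * (catalan k : R)
        * c ^ k * u ^ (n + 1 - k) := by
    rw [sum_range_succ _ (n + 1), mul_sum]
    have h0 : ((n : R) + 1 - ((n + 1 : ℕ) : R)) * ((n + 1).choose (n + 1) : R)
        * (catalan (n + 1) : R) * c ^ (n + 1) * u ^ (n + 1 - (n + 1)) = 0 := by
      push_cast
      ring
    rw [h0, add_zero]
    apply sum_congr rfl
    intro k hk
    have hk' : k ≤ n := by
      have := mem_range.mp hk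
      omega
    have e1 : n + 1 - k = (n - k) + 1 := by omega
    have e2 : (n + 1) * n.choose k = (n + 1).choose k * (n + 1 - k) := by
      have := Nat.add_one_mul_choose_eq n (n - k)
      have e3 : (n + 1).choose (n - k + 1) = (n + 1).choose k := by
        rw [← Nat.choose_symm (by omega : k ≤ n + 1)]
        congr 1
        omega
      rw [Nat.choose_symm hk', e3] at this
      rw [this]
      congr 1
      omega
    have e3 : ((n : R) + 1) * (n.choose k : R) = ((n + 1).choose k : R) * ((n : R) + 1 - k) := by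
      have := congrArg (Nat.cast : ℕ → R) e2
      rw [Nat.cast_mul, Nat.cast_mul, Nat.cast_sub (by omega)] at this
      push_cast at this
      exact this
    rw [e1, pow_succ]
    linear_combination ((catalan k : R) * c ^ k * u ^ (n - k) * u) * e3
  rw [h1, mul_sum, ← sum_add_distrib]
  apply sum_congr rfl
  intro k _
  have h2 : ((k : R) + 1) * (catalan k : R) = (k.centralBinom : R) := by
    have := congrArg (Nat.cast : ℕ → R) (succ_mul_catalan_eq_centralBinom k)
    push_cast at this
    exact this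
  linear_combination (((n + 1).choose k : R) * c ^ k * u ^ (n + 1 - k)) * h2

theorem t_zero (u c : R) : t u c 0 = 1 := by
  simp [t]

theorem w_zero (u c : R) : w u c 0 = 1 := by
  simp [w]

theorem t_one (u c : R) : t u c 1 = u + 2 * c := by
  rw [t_succ, t_zero, w_zero]
  ring

/-- The three term recurrence. -/
theorem t_rec (u c : R) (n : ℕ) :
    ((n : R) + 2) * t u c (n + 2)
      = (2 * (n : R) + 3) * (u + 2 * c) * t u c (n + 1)
        - ((n : R) + 1) * (u * (u + 4 * c)) * t u c n := by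
  have h1 := t_succ u c (n + 1)
  have h2 := t_succ u c n
  have h3 := w_succ u c n
  linear_combination ((n : R) + 2) * h1 - 2 * c * h3 - ((n : R) + 1) * u * h2

/-- The weighted sum of squares. -/
def S (u c : R) (n : ℕ) : R :=
  ∑ j ∈ range n, (8 * c * (j : R) + 4 * c + (u + 2 * c)) * t u c j ^ 2 * u ^ (2 * (n - 1 - j))

theorem S_succ (u c : R) (n : ℕ) :
    S u c (n + 1 + 1) = u ^ 2 * S u c (n + 1)
      + (8 * c * ((n : R) + 1) + 4 * c + (u + 2 * c)) * t u c (n + 1) ^ 2 := by
  unfold S
  rw [sum_range_succ, mul_sum]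
  congr 1
  · apply sum_congr rfl
    intro j hj
    have : 2 * (n + 1 + 1 - 1 - j) = 2 * (n + 1 - 1 - j) + 2 := by
      have := mem_range.mp hj
      omega
    rw [this, pow_add]
    ring
  · simp

theorem S_one (u c : R) : S u c 1 = 4 * c + (u + 2 * c) := by
  simp [S, t_zero]

/-- The closed form, assuming quotients `q n` of `t (n+1) * t n` by a regular element
`b = u + 2 c`. -/
theorem S_closed [IsDomain R] (u c : R) (hb : u + 2 * c ≠ 0) (q : ℕ → R)
    (hq : ∀ n, (u + 2 * c) * q n = t u c (n + 1) * t u c n) (n : ℕ) :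
    S u c (n + 1)
      = ((n : R) + 1) * (2 * c * ((n : R) + 1) * w u c n ^ 2 + (u + 4 * c) * q n) := by
  have hrec : ∀ n : ℕ, ((n : R) + 2) * q (n + 1)
      = (2 * (n : R) + 3) * t u c (n + 1) ^ 2 - ((n : R) + 1) * (u * (u + 4 * c)) * q n := by
    intro n
    apply mul_left_cancel₀ hb
    have h1 := hq (n + 1)
    have h2 := hq n
    have h3 := t_rec u c n
    linear_combination ((n : R) + 2) * h1 + ((n : R) + 1) * (u * (u + 4 * c)) * h2
      + t u c (n + 1) * h3
  induction n with
  | zero =>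
    have h0 : q 0 = 1 := by
      apply mul_left_cancel₀ hb
      rw [hq 0, t_zero, t_one]
    rw [S_one, w_zero, h0]
    push_cast
    ring
  | succ n ih =>
    rw [S_succ, ih]
    have h1 := hrec n
    have h2 := hq n
    have h3 := t_succ u c n
    have h4 := w_succ u c n
    push_cast
    have h5 : (((n : R) + 1 + 1) * w u c (n + 1)) ^ 2
        = (t u c (n + 1) + ((n : R) + 1) * u * w u c n) ^ 2 := by
      rw [← h4]
      ring
    linear_combination (-2 * c) * h5 - (u + 4 * c) * h1
      + (2 * ((n : R) + 1) * u * (u + 4 * c)) * h2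
      + (-2 * ((n : R) + 1) * u * t u c (n + 1)) * h3

end ring

/-! ## Link with the coefficients -/

theorem T_eq_t (b c : ℤ) (m : ℕ) : T b (c ^ 2) m = t (b - 2 * c) c m := by
  unfold T t
  have h1 : (X ^ 2 + C b * X + C (c ^ 2) : ℤ[X]) = (X + C c) ^ 2 + C (b - 2 * c) * X := by
    simp only [C_pow, C_sub, C_mul]
    have : (C 2 : ℤ[X]) = 2 := rfl
    rw [this]
    ring
  rw [h1, add_pow, finsetSum_coeff]
  apply sum_congr rfl
  intro k hk
  have hk' : k ≤ m := by
    have := mem_range.mp hk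
    omega
  have h2 : ((X + C c : ℤ[X]) ^ 2) ^ k * (C (b - 2 * c) * X) ^ (m - k) * ((m.choose k : ℕ) : ℤ[X])
      = C ((b - 2 * c) ^ (m - k) * (m.choose k : ℤ)) * ((X + C c) ^ (2 * k) * X ^ (m - k)) := by
    rw [mul_pow, ← pow_mul, C_mul, C_pow]
    have : (C ((m.choose k : ℕ) : ℤ) : ℤ[X]) = ((m.choose k : ℕ) : ℤ[X]) := by simp
    rw [this]
    ring
  rw [h2, coeff_C_mul]
  have h3 : m = k + (m - k) := by omega
  have h4 : ((X + C c : ℤ[X]) ^ (2 * k) * X ^ (m - k)).coeff m = ((X + C c : ℤ[X]) ^ (2 * k)).coeff k := by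
    conv_lhs => rw [h3]
    rw [Nat.add_sub_cancel_left, coeff_mul_X_pow]
  rw [h4, coeff_X_add_C_pow, Nat.centralBinom_eq_two_mul_choose]
  have : 2 * k - k = k := by omega
  rw [this]
  ring

theorem S_eq (b c : ℤ) (n : ℕ) :
    ∑ j ∈ range n, (8 * c * (j : ℤ) + 4 * c + b) * T b (c ^ 2) j ^ 2
        * (b - 2 * c) ^ (2 * (n - 1 - j)) = S (b - 2 * c) c n := by
  unfold S
  apply sum_congr rfl
  intro j _
  rw [T_eq_t]
  ring

/-! ## Question 1 -/

theorem t_map {R R' : Type*} [CommRing R] [CommRing R'] (f : R →+* R') (u c : R) (n : ℕ) :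
    f (t u c n) = t (f u) (f c) n := by
  unfold t
  rw [map_sum]
  apply sum_congr rfl
  intro k _
  simp

theorem w_map {R R' : Type*} [CommRing R] [CommRing R'] (f : R →+* R') (u c : R) (n : ℕ) :
    f (w u c n) = w (f u) (f c) n := by
  unfold w
  rw [map_sum]
  apply sum_congr rfl
  intro k _
  simp

theorem S_map {R R' : Type*} [CommRing R] [CommRing R'] (f : R →+* R') (u c : R) (n : ℕ) :
    f (S u c n) = S (f u) (f c) n := by
  unfold S
  rw [map_sum]
  apply sum_congr rfl
  intro k _
  simp only [map_mul, map_add, map_pow, t_map, map_natCast, map_ofNat]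

theorem t_odd_zero (c : ℤ) (k : ℕ) : t (-(2 * c)) c (2 * k + 1) = 0 := by
  induction k with
  | zero => rw [t_one]; ring
  | succ k ih =>
    have h := t_rec (-(2 * c)) c (2 * k + 1)
    have h2 : 2 * (k + 1) + 1 = 2 * k + 1 + 2 := by ring
    rw [h2]
    rw [ih] at h
    have h3 : (((2 * k + 1 : ℕ) : ℤ) + 2) * t (-(2 * c)) c (2 * k + 1 + 2) = 0 := by
      rw [h]; ring
    rcases mul_eq_zero.mp h3 with h4 | h4
    · exfalso
      push_cast at h4
      omega
    · exact h4

theorem X_dvd (c : ℤ) (n : ℕ) :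
    (X : ℤ[X]) ∣ t (X - 2 * C c) (C c) (n + 1) * t (X - 2 * C c) (C c) n := by
  rw [X_dvd_iff, coeff_zero_eq_eval_zero]
  have h : ∀ m, eval 0 (t (X - 2 * C c) (C c) m : ℤ[X]) = t (-(2 * c)) c m := by
    intro m
    have := t_map (evalRingHom (0 : ℤ)) (X - 2 * C c) (C c) m
    simpa using this
  rw [eval_mul, h, h]
  rcases Nat.even_or_odd' n with ⟨k, hk | hk⟩
  · rw [hk, t_odd_zero, zero_mul]
  · rw [hk, t_odd_zero, mul_zero]

theorem q1 (u c : ℤ) (n : ℕ) : ∃ q : ℤ, (u + 2 * c) * q = t u c (n + 1) * t u c n ∧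
    S u c (n + 1) = ((n : ℤ) + 1) * (2 * c * ((n : ℤ) + 1) * w u c n ^ 2 + (u + 4 * c) * q) := by
  choose q hq using X_dvd c
  have hb : (X - 2 * C c + 2 * C c : ℤ[X]) ≠ 0 := by
    rw [sub_add_cancel]
    exact X_ne_zero
  have h := S_closed (X - 2 * C c) (C c) hb q (fun n => by rw [sub_add_cancel, hq n]) n
  have e1 : (evalRingHom (u + 2 * c)) (X - 2 * C c : ℤ[X]) = u := by
    simp
  have e2 : (evalRingHom (u + 2 * c)) (C c : ℤ[X]) = c := by simp
  refine ⟨eval (u + 2 * c) (q n), ?_, ?_⟩
  · have h1 := congrArg (evalRingHom (u + 2 * c)) (hq n)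
    rw [map_mul, map_mul, t_map, t_map, e1, e2] at h1
    rw [h1]
    simp
  · have h1 := congrArg (evalRingHom (u + 2 * c)) h
    rw [S_map, e1, e2] at h1
    rw [h1]
    simp only [map_mul, map_add, map_pow, w_map, e1, e2, map_natCast, map_one, map_ofNat,
      coe_evalRingHom]

/-! ## Question 2 -/

section prime

variable (p : ℕ) [hp : Fact p.Prime]

theorem t_prime (u c : ZMod p) : t u c p = u + 2 * c := by
  have hp1 : 1 ≤ p := hp.out.one_lt.le
  unfold t
  rw [sum_range_succ]
  have h1 : ∑ k ∈ range p, (p.choose k : ZMod p) * (k.centralBinom : ZMod p) * c ^ k * u ^ (p - k)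
      = u := by
    rw [sum_eq_single 0]
    · simp
    · intro k hk hk0
      have hk' := mem_range.mp hk
      have : (p.choose k : ZMod p) = 0 := by
        rw [ZMod.natCast_eq_zero_iff]
        exact hp.out.dvd_choose_self hk0 hk'
      rw [this]
      ring
    · intro h
      exact absurd (mem_range.mpr (by omega)) h
  rw [h1]
  have h2 : (p.centralBinom : ZMod p) = 2 := by
    have h3 := Choose.choose_modEq_choose_mod_mul_choose_div_nat (n := 2 * p) (k := p) (p := p)
    rw [Nat.mul_mod_left, Nat.mod_self, Nat.mul_div_cancel _ (by omega),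
      Nat.div_self (by omega)] at h3
    have h4 : (((2 * p).choose p : ℕ) : ZMod p) = ((Nat.choose 0 0 * Nat.choose 2 1 : ℕ) : ZMod p) :=
      (ZMod.natCast_eq_natCast_iff _ _ _).mpr h3
    rw [Nat.centralBinom_eq_two_mul_choose, h4]
    simp
  rw [h2]
  simp

theorem choose_cb (hp2 : p ≠ 2) (k : ℕ) (hk : k < p) :
    ((p - 1).choose k : ZMod p) * (k.centralBinom : ZMod p)
      = 4 ^ k * ((p / 2).choose k : ZMod p) := by
  have hodd : 2 * (p / 2) + 1 = p := by
    rcases hp.out.eq_two_or_odd with h | h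
    · exact absurd h hp2
    · omega
  induction k with
  | zero => simp
  | succ k ih =>
    have ih' := ih (by omega)
    have hne : ((k : ZMod p) + 1) ≠ 0 := by
      have : ((k + 1 : ℕ) : ZMod p) ≠ 0 := by
        rw [Ne, ZMod.natCast_eq_zero_iff]
        intro h
        exact absurd (Nat.le_of_dvd (by omega) h) (by omega)
      simpa using this
    apply mul_left_cancel₀ (mul_ne_zero hne hne)
    have h1 : ((k : ZMod p) + 1) * ((k + 1).centralBinom : ZMod p)
        = 2 * (2 * (k : ZMod p) + 1) * (k.centralBinom : ZMod p) := by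
      have := congrArg (Nat.cast : ℕ → ZMod p) (Nat.succ_mul_centralBinom_succ k)
      push_cast at this
      exact this
    have h2 : ((p - 1).choose (k + 1) : ZMod p) * ((k : ZMod p) + 1)
        = -((p - 1).choose k : ZMod p) * ((k : ZMod p) + 1) := by
      have h3 := congrArg (Nat.cast : ℕ → ZMod p) (Nat.choose_succ_right_eq (p - 1) k)
      have h4 : ((p - 1 - k : ℕ) : ZMod p) = -((k : ZMod p) + 1) := by
        have h5 : p - 1 - k + (k + 1) = p := by omega
        have h6 := congrArg (Nat.cast : ℕ → ZMod p) h5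
        push_cast at h6
        rw [ZMod.natCast_self] at h6
        linear_combination h6
      rw [Nat.cast_mul, Nat.cast_mul, h4] at h3
      push_cast at h3
      linear_combination h3
    by_cases hkN : k ≤ p / 2
    · have h7 : (((p / 2).choose (k + 1) : ℕ) : ZMod p) * ((k : ZMod p) + 1)
          = ((p / 2).choose k : ZMod p) * (((p / 2 : ℕ) : ZMod p) - (k : ZMod p)) := by
        have h3 := congrArg (Nat.cast : ℕ → ZMod p) (Nat.choose_succ_right_eq (p / 2) k)
        rw [Nat.cast_mul, Nat.cast_mul, Nat.cast_sub hkN] at h3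
        push_cast at h3
        exact h3
      have h8 : 2 * ((p / 2 : ℕ) : ZMod p) + 1 = 0 := by
        have h6 := congrArg (Nat.cast : ℕ → ZMod p) hodd
        rw [ZMod.natCast_self] at h6
        push_cast at h6
        exact h6
      calc ((k : ZMod p) + 1) * ((k : ZMod p) + 1) * (((p - 1).choose (k + 1) : ZMod p)
            * ((k + 1).centralBinom : ZMod p))
          = (((p - 1).choose (k + 1) : ZMod p) * ((k : ZMod p) + 1))
            * (((k : ZMod p) + 1) * ((k + 1).centralBinom : ZMod p)) := by ring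
        _ = (-((p - 1).choose k : ZMod p) * ((k : ZMod p) + 1))
            * (2 * (2 * (k : ZMod p) + 1) * (k.centralBinom : ZMod p)) := by rw [h1, h2]
        _ = -((k : ZMod p) + 1) * 2 * (2 * (k : ZMod p) + 1)
            * (((p - 1).choose k : ZMod p) * (k.centralBinom : ZMod p)) := by ring
        _ = -((k : ZMod p) + 1) * 2 * (2 * (k : ZMod p) + 1)
            * (4 ^ k * ((p / 2).choose k : ZMod p)) := by rw [ih']
        _ = ((k : ZMod p) + 1) * 4 ^ (k + 1) * (((p / 2).choose k : ZMod p)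
            * (((p / 2 : ℕ) : ZMod p) - (k : ZMod p))) := by
            rw [pow_succ]
            linear_combination (-2 * ((k : ZMod p) + 1) * 4 ^ k * ((p / 2).choose k : ZMod p)) * h8
        _ = ((k : ZMod p) + 1) * 4 ^ (k + 1) * ((((p / 2).choose (k + 1) : ℕ) : ZMod p)
            * ((k : ZMod p) + 1)) := by rw [h7]
        _ = _ := by ring
    · have h9 : (p / 2).choose k = 0 := Nat.choose_eq_zero_of_lt (by omega)
      have h10 : (p / 2).choose (k + 1) = 0 := Nat.choose_eq_zero_of_lt (by omega)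
      rw [h9] at ih'
      rw [h10]
      have h11 : ((p - 1).choose k : ZMod p) * (k.centralBinom : ZMod p) = 0 := by
        rw [ih']; simp
      calc ((k : ZMod p) + 1) * ((k : ZMod p) + 1) * (((p - 1).choose (k + 1) : ZMod p)
            * ((k + 1).centralBinom : ZMod p))
          = (((p - 1).choose (k + 1) : ZMod p) * ((k : ZMod p) + 1))
            * (((k : ZMod p) + 1) * ((k + 1).centralBinom : ZMod p)) := by ring
        _ = (-((p - 1).choose k : ZMod p) * ((k : ZMod p) + 1))
            * (2 * (2 * (k : ZMod p) + 1) * (k.centralBinom : ZMod p)) := by rw [h1, h2]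
        _ = -((k : ZMod p) + 1) * 2 * (2 * (k : ZMod p) + 1)
            * (((p - 1).choose k : ZMod p) * (k.centralBinom : ZMod p)) := by ring
        _ = _ := by rw [h11]; simp

theorem t_pred (hp2 : p ≠ 2) (u c : ZMod p) :
    t u c (p - 1) = (u * (u + 4 * c)) ^ (p / 2) := by
  have hodd : 2 * (p / 2) + 1 = p := by
    rcases hp.out.eq_two_or_odd with h | h
    · exact absurd h hp2
    · omega
  have hp1 : p - 1 + 1 = p := by omega
  unfold t
  rw [hp1]
  have h1 : (u * (u + 4 * c)) ^ (p / 2)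
      = ∑ k ∈ range (p / 2 + 1), (4 ^ k * ((p / 2).choose k : ZMod p)) * c ^ k
          * u ^ (p - 1 - k) := by
    rw [mul_pow, add_comm u (4 * c), add_pow, mul_sum]
    apply sum_congr rfl
    intro k hk
    have hk' := mem_range.mp hk
    have : p - 1 - k = p / 2 + (p / 2 - k) := by omega
    rw [this, pow_add, mul_pow]
    ring
  rw [h1]
  have h2 : ∑ k ∈ range (p / 2 + 1), (4 ^ k * ((p / 2).choose k : ZMod p)) * c ^ k
          * u ^ (p - 1 - k)
      = ∑ k ∈ range p, (4 ^ k * ((p / 2).choose k : ZMod p)) * c ^ k * u ^ (p - 1 - k) := by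
    apply sum_subset
    · intro k hk
      have hk' := mem_range.mp hk
      exact mem_range.mpr (by omega)
    · intro k hk hk2
      have : (p / 2).choose k = 0 := by
        apply Nat.choose_eq_zero_of_lt
        by_contra h
        exact hk2 (mem_range.mpr (by omega))
      rw [this]
      simp
  rw [h2]
  apply sum_congr rfl
  intro k hk
  rw [choose_cb p hp2 k (mem_range.mp hk)]

/-- The integral form of the second congruence. -/
theorem q2_int (hp2 : p ≠ 2) (b c : ℤ) (hb : ¬ (p : ℤ) ∣ b * (b - 2 * c)) :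
    (p : ℤ) ^ 2 ∣ S (b - 2 * c) c p
      - (p : ℤ) * (b + 2 * c) * legendreSym p (b ^ 2 - 4 * c ^ 2) * (b - 2 * c) ^ (2 * (p - 1)) := by
  have hp1 : p - 1 + 1 = p := by
    have := hp.out.one_lt
    omega
  obtain ⟨q, hq1, hq2⟩ := q1 (b - 2 * c) c (p - 1)
  rw [hp1] at hq1 hq2
  have hpc : (((p - 1 : ℕ) : ℤ) + 1) = (p : ℤ) := by
    exact_mod_cast hp1
  rw [hpc] at hq2
  have hb1 : ((b : ℤ) : ZMod p) ≠ 0 := by
    rw [Ne, ZMod.intCast_zmod_eq_zero_iff_dvd]
    intro h
    exact hb (Dvd.dvd.mul_right h _)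
  have hu1 : ((b - 2 * c : ℤ) : ZMod p) ≠ 0 := by
    rw [Ne, ZMod.intCast_zmod_eq_zero_iff_dvd]
    intro h
    exact hb (Dvd.dvd.mul_left h _)
  have hcast : ∀ m, ((t (b - 2 * c) c m : ℤ) : ZMod p)
      = t (((b - 2 * c : ℤ) : ZMod p)) ((c : ℤ) : ZMod p) m := by
    intro m
    exact t_map (Int.castRingHom (ZMod p)) (b - 2 * c) c m
  have hqleg : ((q : ℤ) : ZMod p) = ((legendreSym p (b ^ 2 - 4 * c ^ 2) : ℤ) : ZMod p) := by
    apply mul_left_cancel₀ hb1
    have h1 := congrArg (Int.cast : ℤ → ZMod p) hq1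
    rw [Int.cast_mul, Int.cast_mul, hcast, hcast, t_prime, t_pred p hp2] at h1
    rw [legendreSym.eq_pow]
    have e1 : ((b - 2 * c + 2 * c : ℤ) : ZMod p) = (b : ZMod p) := by
      rw [sub_add_cancel]
    have e2 : ((b - 2 * c : ℤ) : ZMod p) + 2 * ((c : ℤ) : ZMod p) = (b : ZMod p) := by
      push_cast; ring
    have e3 : ((b - 2 * c : ℤ) : ZMod p) * (((b - 2 * c : ℤ) : ZMod p) + 4 * ((c : ℤ) : ZMod p))
        = ((b ^ 2 - 4 * c ^ 2 : ℤ) : ZMod p) := by
      push_cast; ring
    rw [e1, e2, e3] at h1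
    exact h1
  have hdiv : (p : ℤ) ∣ q - legendreSym p (b ^ 2 - 4 * c ^ 2) * (b - 2 * c) ^ (2 * (p - 1)) := by
    rw [← ZMod.intCast_zmod_eq_zero_iff_dvd]
    have e1 : ((b - 2 * c : ℤ) : ZMod p) ^ (p - 1) = 1 := ZMod.pow_card_sub_one_eq_one hu1
    have e2 : (((b - 2 * c) ^ (2 * (p - 1)) : ℤ) : ZMod p) = 1 := by
      rw [Int.cast_pow, mul_comm 2 (p - 1), pow_mul, e1, one_pow]
    rw [Int.cast_sub, Int.cast_mul, e2, hqleg]
    ring
  obtain ⟨z, hz⟩ := hdiv
  refine ⟨2 * c * w (b - 2 * c) c (p - 1) ^ 2 + (b + 2 * c) * z, ?_⟩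
  rw [hq2]
  linear_combination ((p : ℤ) * (b + 2 * c)) * hz

end prime

end Pool.Agent.V5helper63.TrinomSq
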